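import Pool.Agent.Helper69.MWF.BasicC
import Pool.Agent.Helper56.Category

/-!
# MP_80e84b_lc (S14965): basic topology, category, automorphisms
-/

set_option autoImplicit false

open Topology Set Filter
open Nat.Partrec (Code)

namespace Pool.Agent.Helper69.MWF

open Pool.Agent.Helper95.MW

/-! ### topology of `ℕ → ℕ` -/

theorem isClopen_Cy (f : ℕ → ℕ) (n : ℕ) : IsClopen (Cy f n) := by
  have e : Cy f n = ⋂ i ∈ Finset.range n, (fun x : ℕ → ℕ => x i) ⁻¹' {f i} := by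
    ext x
    simp [Cy]
  rw [e]
  constructor
  · exact isClosed_biInter fun i _ => (isClosed_discrete _).preimage (continuous_apply i)
  · exact isOpen_biInter_finset fun i _ => (isOpen_discrete _).preimage (continuous_apply i)

theorem isOpen_Cy (f : ℕ → ℕ) (n : ℕ) : IsOpen (Cy f n) := (isClopen_Cy f n).isOpen

theorem isClosed_Cy (f : ℕ → ℕ) (n : ℕ) : IsClosed (Cy f n) := (isClopen_Cy f n).isClosed

theorem exists_Cy_subset {U : Set (ℕ → ℕ)} (hU : IsOpen U) {x : ℕ → ℕ} (hx : x ∈ U) :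
    ∃ n, Cy x n ⊆ U := by
  rw [isOpen_pi_iff] at hU
  obtain ⟨I, t, h1, h2⟩ := hU x hx
  obtain ⟨k, hk⟩ := I.bddAbove
  refine ⟨k + 1, fun z hz => h2 ?_⟩
  intro i hi
  have : z i = x i := hz i (Nat.lt_succ_of_le (hk hi))
  rw [this]
  exact (h1 i hi).2

theorem isOpen_of_Cy {U : Set (ℕ → ℕ)} (h : ∀ x ∈ U, ∃ n, Cy x n ⊆ U) : IsOpen U := by
  rw [isOpen_iff_forall_mem_open]
  intro x hx
  obtain ⟨n, hn⟩ := h x hx
  exact ⟨Cy x n, hn, isOpen_Cy x n, mem_Cy_self x n⟩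

theorem dense_of_Cy {D : Set (ℕ → ℕ)} (h : ∀ x n, ∃ y ∈ D, y ∈ Cy x n) : Dense D := by
  rw [dense_iff_inter_open]
  rintro U hU ⟨x, hx⟩
  obtain ⟨n, hn⟩ := exists_Cy_subset hU hx
  obtain ⟨y, hy, hy2⟩ := h x n
  exact ⟨y, hn hy2, hy⟩

theorem exists_mem_Cy_of_dense {D : Set (ℕ → ℕ)} (h : Dense D) (x : ℕ → ℕ) (n : ℕ) :
    ∃ y ∈ D, y ∈ Cy x n := by
  obtain ⟨y, hy1, hy2⟩ := h.inter_open_nonempty _ (isOpen_Cy x n) ⟨x, mem_Cy_self x n⟩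
  exact ⟨y, hy2, hy1⟩

/-! products -/

theorem exists_box_subset {U : Set ((ℕ → ℕ) × (ℕ → ℕ))} (hU : IsOpen U) {p : (ℕ → ℕ) × (ℕ → ℕ)}
    (hp : p ∈ U) : ∃ n, ∀ q : (ℕ → ℕ) × (ℕ → ℕ), q.1 ∈ Cy p.1 n → q.2 ∈ Cy p.2 n → q ∈ U := by
  rw [isOpen_prod_iff] at hU
  obtain ⟨V, W, hV, hW, h1, h2, h3⟩ := hU p.1 p.2 hp
  obtain ⟨n, hn⟩ := exists_Cy_subset hV h1
  obtain ⟨m, hm⟩ := exists_Cy_subset hW h2
  exact ⟨max n m, fun q h4 h5 => h3 ⟨hn (Cy_mono (le_max_left _ _) h4),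
    hm (Cy_mono (le_max_right _ _) h5)⟩⟩

theorem isOpen_box (f g : ℕ → ℕ) (n m : ℕ) :
    IsOpen {p : (ℕ → ℕ) × (ℕ → ℕ) | p.1 ∈ Cy f n ∧ p.2 ∈ Cy g m} :=
  (isOpen_Cy f n).prod (isOpen_Cy g m)

theorem dense_of_box {D : Set ((ℕ → ℕ) × (ℕ → ℕ))}
    (h : ∀ x y n, ∃ q ∈ D, q.1 ∈ Cy x n ∧ q.2 ∈ Cy y n) : Dense D := by
  rw [dense_iff_inter_open]
  rintro U hU ⟨p, hp⟩
  obtain ⟨n, hn⟩ := exists_box_subset hU hp
  obtain ⟨q, hq, hq1, hq2⟩ := h p.1 p.2 n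
  exact ⟨q, hn q hq1 hq2, hq⟩

/-- points of a residual set in a cylinder -/
theorem exists_of_residual {P : Set (ℕ → ℕ)} (hP : P ∈ residual (ℕ → ℕ)) (x : ℕ → ℕ) (n : ℕ) :
    ∃ y ∈ P, y ∈ Cy x n := exists_mem_Cy_of_dense (dense_of_mem_residual hP) x n

theorem exists_of_residual' {P : (ℕ → ℕ) → Prop} (hP : ∀ᶠ x in residual (ℕ → ℕ), P x)
    (x : ℕ → ℕ) (n : ℕ) : ∃ y, P y ∧ y ∈ Cy x n := exists_of_residual hP x n

theorem exists_of_residual2 {P : Set ((ℕ → ℕ) × (ℕ → ℕ))}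
    (hP : P ∈ residual ((ℕ → ℕ) × (ℕ → ℕ))) (x y : ℕ → ℕ) (n m : ℕ) :
    ∃ q ∈ P, q.1 ∈ Cy x n ∧ q.2 ∈ Cy y m := by
  obtain ⟨q, hq1, hq2⟩ := (dense_of_mem_residual hP).inter_open_nonempty _ (isOpen_box x y n m)
    ⟨(x, y), mem_Cy_self x n, mem_Cy_self y m⟩
  exact ⟨q, hq2, hq1⟩

theorem exists_of_residual2' {P : (ℕ → ℕ) × (ℕ → ℕ) → Prop}
    (hP : ∀ᶠ p in residual ((ℕ → ℕ) × (ℕ → ℕ)), P p) (x y : ℕ → ℕ) (n m : ℕ) :
    ∃ q, P q ∧ q.1 ∈ Cy x n ∧ q.2 ∈ Cy y m := exists_of_residual2 hP x y n m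

theorem not_isMeagre_of_isOpen {U : Set (ℕ → ℕ)} (hU : IsOpen U) (hne : U.Nonempty) :
    ¬ IsMeagre U := by
  intro h
  have h1 : Uᶜ ∈ residual (ℕ → ℕ) := h
  obtain ⟨x, hx⟩ := hne
  obtain ⟨n, hn⟩ := exists_Cy_subset hU hx
  obtain ⟨y, hy, hy2⟩ := exists_of_residual h1 x n
  exact hy (hn hy2)

theorem not_isMeagre_Cy (f : ℕ → ℕ) (n : ℕ) : ¬ IsMeagre (Cy f n) :=
  not_isMeagre_of_isOpen (isOpen_Cy f n) ⟨f, mem_Cy_self f n⟩

/-- a set which contains a residual part of a cylinder is nonmeager -/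
theorem not_isMeagre_of_eventually {S : Set (ℕ → ℕ)} {f : ℕ → ℕ} {n : ℕ}
    (h : ∀ᶠ x in residual (ℕ → ℕ), x ∈ Cy f n → x ∈ S) : ¬ IsMeagre S := by
  intro hS
  have h1 : Sᶜ ∈ residual (ℕ → ℕ) := hS
  obtain ⟨y, ⟨hy1, hy2⟩, hy3⟩ := exists_of_residual (Filter.inter_mem h h1) f n
  exact hy2 (hy1 hy3)

/-! ### the sets `Sm` of helper95 -/

theorem nwd_isNowhereDense {S : Set (ℕ → ℕ)} (h : NWD S) : IsNowhereDense S := by
  rw [IsNowhereDense, eq_empty_iff_forall_notMem]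
  intro x hx
  obtain ⟨n, hn⟩ := exists_Cy_subset isOpen_interior hx
  obtain ⟨y, s', h1, h2, h3⟩ := h x n
  have hy : y ∈ Cy x n := mem_Cy_iff.2 h2
  have h4 : y ∈ closure S := interior_subset (hn hy)
  obtain ⟨z, hz1, hz2⟩ := mem_closure_iff.1 h4 _ (isOpen_Cy y s') (mem_Cy_self y s')
  exact h3 z hz2 (mem_Cy_iff.1 hz1)

theorem sm_isMeagre {S : Set (ℕ → ℕ)} (h : Sm S) : IsMeagre S := by
  obtain ⟨T, h1, h2, h3⟩ := h
  refine IsMeagre.mono h3 ?_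
  rw [sUnion_eq_biUnion]
  exact isMeagre_biUnion h1 fun N hN => (nwd_isNowhereDense (h2 N hN)).isMeagre

/-- a set which is c.e. in `w ⊕ x` for a nonmeager set of `x` is c.e. in `w` -/
theorem gen_ce' {A : Set ℕ} {w : ℕ → ℕ} {S : Set (ℕ → ℕ)} (hS : ¬ IsMeagre S)
    (h : ∀ x ∈ S, CEIn A (jn w x)) : CEIn A w := gen_ce (fun hs => hS (sm_isMeagre hs)) h

theorem gen_le'' {g w : ℕ → ℕ} {S : Set (ℕ → ℕ)} (hS : ¬ IsMeagre S)
    (h : ∀ x ∈ S, LE g (jn w x)) : LE g w := gen_le (fun hs => hS (sm_isMeagre hs)) h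

/-- `Ind` of the text -/
theorem ind {d e : ℕ → ℕ} (h : ¬ LE d e) : ∀ᶠ k in residual (ℕ → ℕ), ¬ LE d (jn e k) := by
  by_contra hc
  have h1 : ¬ IsMeagre {k : ℕ → ℕ | LE d (jn e k)} := by
    intro h2
    exact hc h2
  exact h (gen_le'' h1 fun x hx => hx)

theorem countable_isMeagre {S : Set (ℕ → ℕ)} (h : S.Countable) : IsMeagre S :=
  sm_isMeagre (sm_countable h)

/-! ### automorphisms of the Turing degrees -/

section Pi

variable {π : (ℕ → ℕ) → (ℕ → ℕ)}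

theorem pi_te (h : PiAut π) {f g : ℕ → ℕ} (hfg : TE f g) : TE (π f) (π g) :=
  ⟨(h.iff _ _).1 hfg.1, (h.iff _ _).1 hfg.2⟩

theorem pi_te_iff (h : PiAut π) {f g : ℕ → ℕ} : TE (π f) (π g) ↔ TE f g :=
  ⟨fun h1 => ⟨(h.iff _ _).2 h1.1, (h.iff _ _).2 h1.2⟩, pi_te h⟩

theorem piInv_spec (h : PiAut π) (f : ℕ → ℕ) : TE (π (piInv π f)) f := by
  unfold piInv
  have hh : ∃ g, TE (π g) f := h.surj f
  rw [dif_pos hh]
  exact hh.choose_spec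

theorem piInv_left (h : PiAut π) (f : ℕ → ℕ) : TE (piInv π (π f)) f :=
  (pi_te_iff h).1 (piInv_spec h (π f))

theorem piInv_iff (h : PiAut π) (g f : ℕ → ℕ) : LE g f ↔ LE (piInv π g) (piInv π f) := by
  rw [h.iff (piInv π g) (piInv π f)]
  exact TE.le_iff (piInv_spec h g).symm (piInv_spec h f).symm

theorem piInv_aut (h : PiAut π) : PiAut (piInv π) where
  iff := piInv_iff h
  surj := fun g => ⟨π g, piInv_left h g⟩

/-- Galois type rules -/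
theorem le_pi_iff (h : PiAut π) {f g : ℕ → ℕ} : LE f (π g) ↔ LE (piInv π f) g := by
  rw [h.iff (piInv π f) g]
  exact TE.le_iff (piInv_spec h f).symm (TE.refl _)

theorem pi_le_iff (h : PiAut π) {f g : ℕ → ℕ} : LE (π f) g ↔ LE f (piInv π g) := by
  rw [h.iff f (piInv π g)]
  exact TE.le_iff (TE.refl _) (piInv_spec h g).symm

/-- automorphisms preserve joins -/
theorem pi_jn (h : PiAut π) (f g : ℕ → ℕ) : TE (π (jn f g)) (jn (π f) (π g)) := by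
  constructor
  · rw [pi_le_iff h]
    refine jn_le ?_ ?_
    · rw [← pi_le_iff h]
      exact le_jn_left _ _
    · rw [← pi_le_iff h]
      exact le_jn_right _ _
  · exact jn_le ((h.iff _ _).1 (le_jn_left _ _)) ((h.iff _ _).1 (le_jn_right _ _))

/-- if `f ≤ g + k` then `π f ≤ π g + π k` -/
theorem pi_le_jn (h : PiAut π) {f g k : ℕ → ℕ} (h1 : LE f (jn g k)) :
    LE (π f) (jn (π g) (π k)) := ((h.iff _ _).1 h1).trans (pi_jn h g k).1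

theorem pi_of_le_jn (h : PiAut π) {f g k : ℕ → ℕ} (h1 : LE (π f) (jn (π g) (π k))) :
    LE f (jn g k) := (h.iff _ _).2 (h1.trans (pi_jn h g k).2)

end Pi

end Pool.Agent.Helper69.MWF
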