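import Pool.Agent.Helper69.MWF.Defs

/-!
# MP_80e84b_lc (S14965): statements of the modules

Every module proves `theorem xxx : ST_XXX` (perhaps from other `ST_` as hypotheses).
-/

set_option autoImplicit false

open Topology Set Filter
open Nat.Partrec (Code)

namespace Pool.Agent.Helper69.MWF

open Pool.Agent.Helper95.MW

/-! ### computability -/

/-- uniform codes: a search in the initial segments is a `WC`, with one code for all `w` -/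
def ST_UC : Prop := ∀ (α : Type) [Primcodable α] (ρ : ℕ × α × List ℕ → Bool) (S : α → ℕ),
  Primrec ρ → Primrec S → ∃ c : Code, ∀ w : ℕ → ℕ,
    {n | ∃ T : α, ρ (n, T, ini w (S T)) = true} = WC c w

/-- composition of functionals -/
def ST_COMP : Prop := ∀ c c' : Code, ∃ c'' : Code, ∀ x y z : ℕ → ℕ,
  segs y = WC c x → segs z = WC c' y → segs z = WC c'' x

/-- reflexive transitive closure of a c.e. relation -/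
def ST_RTG : Prop := ∀ (S : Set ℕ) (R : ℕ → ℕ → Prop) (w : ℕ → ℕ), CEIn S w →
  CEIn {m | R m.unpair.1 m.unpair.2} w →
  CEIn {b | ∃ a ∈ S, Relation.ReflTransGen R a b} w

/-- enumeration by a function -/
def ST_ENUM : Prop := ∀ (A : Set ℕ) (w : ℕ → ℕ), A.Nonempty → CEIn A w →
  ∃ e : ℕ → ℕ, LE e w ∧ range e = A

/-- unions of `WC c` over the initial segments in a c.e. set of strings: if `S` is c.e. in `w`, then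
so is the union of the finite approximations -/
def ST_UN : Prop := ∀ (c : Code) (S : Set ℕ) (w x : ℕ → ℕ), CEIn S w → LE x w →
  CEIn {m | ∃ p : List ℕ, ec p ∈ S ∧ ∃ s ≤ p.length,
    (c.eval (Nat.pair m (ec (zp p (ini x s) s)))).Dom} w

/-- calculus of c.e. sets -/
def ST_CEC : Prop :=
  (∀ (A B : Set ℕ) (w : ℕ → ℕ), CEIn A w → CEIn B w → CEIn (A ∩ B) w) ∧
  (∀ (A B : Set ℕ) (w : ℕ → ℕ), CEIn A w → CEIn B w → CEIn (A ∪ B) w) ∧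
  (∀ (A : Set ℕ) (w f : ℕ → ℕ), CEIn A w → LE f w → CEIn {n | f n ∈ A} w) ∧
  (∀ (A : Set ℕ) (w : ℕ → ℕ), CEIn A w → CEIn {n | ∃ k, Nat.pair n k ∈ A} w) ∧
  (∀ (P : ℕ → Prop) (w : ℕ → ℕ), PrimrecPred P → CEIn {n | P n} w) ∧
  (∀ f w : ℕ → ℕ, LE f w → CEIn {m | m.unpair.2 = f m.unpair.1} w) ∧
  (∀ f w : ℕ → ℕ, LE f w → CEIn (range f) w) ∧
  (∀ (c : Code) (w : ℕ → ℕ), CEIn {m | (c.eval m).Dom} w)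

/-- zipped strings -/
def ST_ZIP : Prop := ∀ (S T : Set ℕ) (w : ℕ → ℕ), CEIn S w → CEIn T w →
  CEIn {m | ∃ p q : List ℕ, ec p ∈ S ∧ ec q ∈ T ∧ p.length = q.length ∧
    m = ec (zp p q p.length)} w

/-- Posner-Robinson for enumeration -/
def ST_PR : Prop := ∀ (A : Set ℕ) (w : ℕ → ℕ), ¬ CEIn A w →
  ∃ c d : ℕ → ℕ, LE w c ∧ ¬ LE d c ∧ ∀ y, CEIn A y → LE d (jn y c)

/-- closure under the removal of `π`-images of generics -/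
def ST_CL : Prop := ∀ π, PiAut π → ∀ (A : Set ℕ) (w : ℕ → ℕ),
  ¬ IsMeagre {h : ℕ → ℕ | CEIn A (jn w (π h))} → CEIn A w

/-! ### Borel sets and category -/

def ST_BORLE : Prop := MeasurableSet {p : (ℕ → ℕ) × (ℕ → ℕ) | LE p.1 p.2}

def ST_BORCE : Prop := ∀ A : Set ℕ, MeasurableSet {f : ℕ → ℕ | CEIn A f}

def ST_BORWC : Prop := ∀ (A : Set ℕ) (c : Code), MeasurableSet {f : ℕ → ℕ | A = WC c f}

def ST_BORSW : Prop := ∀ c : Code,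
  MeasurableSet {p : (ℕ → ℕ) × (ℕ → ℕ) | segs p.1 = WC c p.2}

def ST_AP : Prop := (∀ c : Code, Measurable (Ap c)) ∧ (∀ (c : Code) x, LE (Ap c x) x) ∧
  (∀ x y, LE y x → ∃ c : Code, Ap c x = y) ∧
  (∀ (c : Code) x, (∃ y, segs y = WC c x) → segs (Ap c x) = WC c x)

def ST_KU1 : Prop := ∀ P : Set ((ℕ → ℕ) × (ℕ → ℕ)), P ∈ residual ((ℕ → ℕ) × (ℕ → ℕ)) →
  ∀ᶠ x in residual (ℕ → ℕ), ∀ᶠ y in residual (ℕ → ℕ), (x, y) ∈ P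

def ST_KU2 : Prop := ∀ P : Set ((ℕ → ℕ) × (ℕ → ℕ)), MeasurableSet P →
  (∀ᶠ x in residual (ℕ → ℕ), ∀ᶠ y in residual (ℕ → ℕ), (x, y) ∈ P) →
  P ∈ residual ((ℕ → ℕ) × (ℕ → ℕ))

def ST_L1 : Prop := ∀ (S : Set (ℕ → ℕ)) (T : ℕ → Set (ℕ → ℕ)) (f : ℕ → ℕ) (n : ℕ),
  ¬ IsMeagre (S ∩ Cy f n) → S ⊆ ⋃ i, T i →
  ∃ (i : ℕ) (f' : ℕ → ℕ) (n' : ℕ), n ≤ n' ∧ f' ∈ Cy f n ∧ EN (T i) f' n'

def ST_L2 : Prop := ∀ (P : Set (ℕ → ℕ)) (f : ℕ → ℕ) (n : ℕ), MeasurableSet P →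
  ¬ IsMeagre (P ∩ Cy f n) → ∃ (f' : ℕ → ℕ) (n' : ℕ), n ≤ n' ∧ f' ∈ Cy f n ∧
    ∀ᶠ x in residual (ℕ → ℕ), x ∈ Cy f' n' → x ∈ P

/-- uniformization inside a box: countably many Borel sets which cover a residual set -/
def ST_UNI1 : Prop := ∀ (ι : Type) [Countable ι] (P : ι → Set (ℕ → ℕ)),
  (∀ i, MeasurableSet (P i)) → (∀ᶠ x in residual (ℕ → ℕ), ∃ i, x ∈ P i) →
  ∀ (f : ℕ → ℕ) (n : ℕ), ∃ (i : ι) (f' : ℕ → ℕ) (n' : ℕ), n ≤ n' ∧ f' ∈ Cy f n ∧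
    ∀ᶠ x in residual (ℕ → ℕ), x ∈ Cy f' n' → x ∈ P i

def ST_UNI2 : Prop := ∀ (ι : Type) [Countable ι] (P : ι → Set ((ℕ → ℕ) × (ℕ → ℕ))),
  (∀ i, MeasurableSet (P i)) → (∀ᶠ p in residual ((ℕ → ℕ) × (ℕ → ℕ)), ∃ i, p ∈ P i) →
  ∀ (f g : ℕ → ℕ) (n : ℕ), ∃ (i : ι) (f' g' : ℕ → ℕ) (n' : ℕ), n ≤ n' ∧ f' ∈ Cy f n ∧
    g' ∈ Cy g n ∧ ∀ᶠ p in residual ((ℕ → ℕ) × (ℕ → ℕ)), p.1 ∈ Cy f' n' → p.2 ∈ Cy g' n' → p ∈ P i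

/-- Borel maps are continuous on a residual set -/
def ST_MC : Prop := ∀ F : (ℕ → ℕ) → (ℕ → ℕ), Measurable F → ∃ G ∈ residual (ℕ → ℕ),
  ∀ x ∈ G, ∀ n, ∃ m, ∀ x' ∈ G, x' ∈ Cy x m → F x' ∈ Cy (F x) n

/-- Borel maps are computable with an oracle on a residual set -/
def ST_BM : Prop := ∀ F : ℕ → (ℕ → ℕ) → (ℕ → ℕ), (∀ e, Measurable (F e)) →
  ∃ b : ℕ → ℕ, ∀ᶠ x in residual (ℕ → ℕ), ∀ e, LE (F e x) (jn b x)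

/-- columns, concatenation, xor, joins and residual sets -/
def ST_RES : Prop :=
  (∀ i, Tendsto (fun x => col x i) (residual (ℕ → ℕ)) (residual (ℕ → ℕ))) ∧
  (∀ z, Tendsto (fun x => xr x z) (residual (ℕ → ℕ)) (residual (ℕ → ℕ))) ∧
  (∀ f n, Tendsto (fun x => pre f n x) (residual (ℕ → ℕ)) (residual (ℕ → ℕ))) ∧
  (∀ f n (P : (ℕ → ℕ) → Prop), (∀ᶠ x in residual (ℕ → ℕ), x ∈ Cy f n → P x) ↔
    ∀ᶠ y in residual (ℕ → ℕ), P (cat f n y)) ∧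
  (∀ P : Set (ℕ → ℕ), P ∈ residual (ℕ → ℕ) ↔
    ∀ᶠ p in residual ((ℕ → ℕ) × (ℕ → ℕ)), jn p.1 p.2 ∈ P) ∧
  Tendsto (fun p : (ℕ → ℕ) × (ℕ → ℕ) => p.1) (residual _) (residual (ℕ → ℕ)) ∧
  Tendsto (fun p : (ℕ → ℕ) × (ℕ → ℕ) => p.2) (residual _) (residual (ℕ → ℕ)) ∧
  (∀ e : ℕ → ℕ, Tendsto (fun p : (ℕ → ℕ) × (ℕ → ℕ) => xr p.1 (e ∘ p.2)) (residual _)
    (residual (ℕ → ℕ))) ∧
  Tendsto (fun p : (ℕ → ℕ) × (ℕ → ℕ) => act p.1 p.2) (residual _) (residual (ℕ → ℕ))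

/-! ### the identity on a cone -/

/-- Borel representation at generic points -/
def ST_CODE : Prop := ∀ π, PiAut π → ∃ Y : ℕ → (ℕ → ℕ) → (ℕ → ℕ), (∀ e, Measurable (Y e)) ∧
  ∀ᶠ x in residual (ℕ → ℕ), ∃ e, TE (Y e x) (π x)

/-- `π z ≤ b + z` for all `z` -/
def ST_GLOB : Prop := ∀ π, PiAut π → ∃ b : ℕ → ℕ, ∀ z, LE (π z) (jn b z)

/-! ### uniformization -/

def ST_FUS : Prop := ∀ (A : ℕ → Set (ℕ → ℕ)) (D : Set (ℕ → ℕ)),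
  (∀ i, EN (A i) (fun _ => 0) 0) → D ∈ residual (ℕ → ℕ) → ∃ x ∈ D, ∀ i, col x i ∈ A i

def ST_INF : Prop := ∀ b : ℕ → ℕ, ∀ᶠ x in residual (ℕ → ℕ), ∀ (i : ℕ) (u : ℕ → ℕ),
  LE u x → LE u (jn b (col x i)) → LE u (col x i)

def ST_CCC : Prop := ∀ Z : ℕ → (ℕ → Bool) → Set (ℕ → ℕ), (∀ j k, MeasurableSet (Z j k)) →
  (∀ j k k', k ≠ k' → Disjoint (Z j k) (Z j k')) → ∃ k, ∀ j, IsMeagre (Z j k)

/-- one Borel map represents `π` at generic points -/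
def ST_UNIF : Prop := ∀ π, PiAut π → ∃ F : (ℕ → ℕ) → (ℕ → ℕ), Measurable F ∧
  ∀ᶠ x in residual (ℕ → ℕ), TE (F x) (π x)

def ST_REP : Prop := ∀ π, PiAut π → ∃ F G, Rep π F G

/-! ### the tree is c.e. -/

def ST_ACT1 : Prop := ∀ (u : ℕ → ℕ) (M : ℕ) (W : Set (ℕ → ℕ)), IsOpen W →
  ∀ O ∈ residual ((ℕ → ℕ) × (ℕ → ℕ)), ∀ᶠ p in residual ((ℕ → ℕ) × (ℕ → ℕ)),
    p.1 ∈ W → p.2 ∈ Cy u M → (p.1, alp u M p.1 p.2) ∈ O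

/-- properties of the involution of the labels -/
def ST_HM : Prop := ∀ (u : ℕ → ℕ) (M : ℕ), (∀ s, Hm u M (Hm u M s) = s) ∧
  (∀ s, LE (Hm u M s) s) ∧
  Tendsto (fun s => Hm u M s) (residual (ℕ → ℕ)) (residual (ℕ → ℕ)) ∧
  Tendsto (fun p : (ℕ → ℕ) × (ℕ → ℕ) => (Hm u M p.1, p.2)) (residual _) (residual _)

def ST_ORB1 : Prop := ∀ (u : ℕ → ℕ) (M : ℕ) (W : Set (ℕ → ℕ)), IsOpen W →
  (∀ s ∈ W, Hm u M s ∈ W) → ∀ O ∈ residual ((ℕ → ℕ) × (ℕ → ℕ)),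
  ∀ᶠ p in residual ((ℕ → ℕ) × (ℕ → ℕ)), p.1 ∈ W → p.2 ∈ Cy u M → ∀ w : List Bool,
    (p.1, orb u M p.1 p.2 w) ∈ O ∧ (Hm u M p.1, orb u M p.1 p.2 w) ∈ O

def ST_ORB2 : Prop := ∀ (u : ℕ → ℕ) (M : ℕ) (W : Set (ℕ → ℕ)), IsOpen W →
  ∀ᶠ p in residual ((ℕ → ℕ) × (ℕ → ℕ)), p.1 ∈ W → p.2 ∈ Cy u M →
    ∀ (v : ℕ → ℕ) (k : ℕ), v ∈ Cy u M → ∃ w : List Bool, orb u M p.1 p.2 w ∈ Cy v k

/-- the uniform box for the action; `u`, `M`, `W` as in the text -/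
def ST_BOX : Prop := ∀ π F G, PiAut π → Rep π F G → ∃ (u : ℕ → ℕ) (M : ℕ) (W : Set (ℕ → ℕ))
  (c : Code), IsOpen W ∧ W.Nonempty ∧ (∀ s ∈ W, Hm u M s ∈ W) ∧
  ∀ᶠ p in residual ((ℕ → ℕ) × (ℕ → ℕ)), p.1 ∈ W → p.2 ∈ Cy u M →
    segs (F (alp u M p.1 p.2)) = WC c (jn (F p.1) (F p.2))

def ST_TREE1 : Prop := ∀ π F G, PiAut π → Rep π F G →
  ∃ (u : ℕ → ℕ) (n : ℕ), CEIn (TS F (G ∩ Cy u n)) (fun _ => 0)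

def ST_TREE : Prop := ∀ π F G, PiAut π → Rep π F G → ∀ (v : ℕ → ℕ) (k : ℕ),
  ∃ (u : ℕ → ℕ) (n : ℕ), k ≤ n ∧ u ∈ Cy v k ∧ CEIn (TS F (G ∩ Cy u n)) (fun _ => 0)

/-! ### the set `B` -/

/-- generic pairs: for `e : ℕ → ℕ` with range `A` the pair `(k, k xor (e ∘ g))` is in `KK A G` for
generic `(k, g)`; density -/
def ST_KK : Prop := ∀ (A : Set ℕ) (F : (ℕ → ℕ) → (ℕ → ℕ)) (π G), Rep π F G → ∀ e : ℕ → ℕ,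
  range e = A →
  (∀ᶠ p in residual ((ℕ → ℕ) × (ℕ → ℕ)), (p.1, xr p.1 (e ∘ p.2)) ∈ KK A G) ∧
  (∀ᶠ p in residual ((ℕ → ℕ) × (ℕ → ℕ)), range (e ∘ p.2) = A) ∧
  -- every element of `JJ` in a cylinder has a box of generic pairs in this cylinder
  (∀ k1 k2 : ℕ → ℕ, (k1, k2) ∈ KK A G → ∀ n, ∃ g : ℕ → ℕ, k2 = xr k1 (e ∘ g) ∧ ∃ m,
    ∀ k' g' : ℕ → ℕ, k' ∈ Cy k1 m → g' ∈ Cy g m → (k', xr k' (e ∘ g')) ∈ KK A G →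
      jn (F k') (F (xr k' (e ∘ g'))) ∈ Cy (jn (F k1) (F k2)) n) ∧
  -- every pair whose image is close to the image of `(k, k xor (e ∘ g))` comes from the box
  (∀ k g : ℕ → ℕ, (k, xr k (e ∘ g)) ∈ KK A G → ∀ n, ∃ m, ∀ k1 k2 : ℕ → ℕ, (k1, k2) ∈ KK A G →
    jn (F k1) (F k2) ∈ Cy (jn (F k) (F (xr k (e ∘ g)))) m →
      ∃ g', g' ∈ Cy g n ∧ k1 ∈ Cy k n ∧ k2 = xr k1 (e ∘ g'))

def ST_D1 : Prop := ∀ π F G, PiAut π → Rep π F G → ∀ (A : Set ℕ) (z : ℕ → ℕ), A.Nonempty →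
  CEIn A z → ∀ y ∈ JJ A G F, ∀ n, ∃ y' ∈ JJ A G F, ∃ n', n ≤ n' ∧ y' ∈ Cy y n ∧
    CEIn (SS (JJ A G F) y' n') (π z)

def ST_D2 : Prop := ∀ π F G, PiAut π → Rep π F G → ∀ A : Set ℕ, A.Nonempty →
  ∀ y1 ∈ JJ A G F, ∀ n1, ∀ y2 ∈ JJ A G F, ∀ n2,
  ∃ y ∈ JJ A G F, ∃ n, n1 ≤ n ∧ y ∈ Cy y1 n1 ∧ ∃ y' ∈ JJ A G F, ∃ n', n2 ≤ n' ∧ y' ∈ Cy y2 n2 ∧
    ∀ y'' ∈ JJ A G F, ∀ n'', n ≤ n'' → y'' ∈ Cy y n → ∀ w, CEIn (SS (JJ A G F) y'' n'') w →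
      CEIn (SS (JJ A G F) y' n') w

/-- a subtree of a c.e. tree is c.e. -/
def ST_SUB : Prop := ∀ (J : Set (ℕ → ℕ)) (y y' : ℕ → ℕ) (n n' : ℕ) (w : ℕ → ℕ), n ≤ n' →
  y' ∈ Cy y n → CEIn (SS J y n) w → CEIn (SS J y' n') w

def ST_D3 : Prop := ∀ π F G, PiAut π → Rep π F G → ∀ A : Set ℕ, A.Nonempty →
  ∃ y ∈ JJ A G F, ∃ n, ∀ y'' ∈ JJ A G F, ∀ n'', n ≤ n'' → y'' ∈ Cy y n → ∀ w,
    CEIn (SS (JJ A G F) y'' n'') w → CEIn (SS (JJ A G F) y n) w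

def ST_BACK : Prop := ∀ π F G, PiAut π → Rep π F G → ∀ (A : Set ℕ) (z : ℕ → ℕ), A.Nonempty →
  ∀ y ∈ JJ A G F, ∀ n, CEIn (SS (JJ A G F) y n) (π z) → CEIn A z

/-- the main theorem on automorphisms of the Turing degrees -/
def ST_MAIN : Prop := ∀ π, PiAut π → ∀ A : Set ℕ, ∃ B : Set ℕ, ∀ z, CEIn A z ↔ CEIn B (π z)

end Pool.Agent.Helper69.MWF
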