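import Pool.Agent.Helper69.MWF.Defs

/-!
# MP_80e84b_lc (S14965): basic lemmas on Turing reducibility
-/

set_option autoImplicit false

open Topology Set Filter
open Nat.Partrec (Code)

namespace Pool.Agent.Helper69.MWF

open Pool.Agent.Helper95.MW

/-! ### Turing equivalence -/

theorem TE.refl (f : ℕ → ℕ) : TE f f := ⟨LE.refl f, LE.refl f⟩

theorem TE.symm {f g : ℕ → ℕ} (h : TE f g) : TE g f := ⟨h.2, h.1⟩

theorem TE.trans {f g h : ℕ → ℕ} (h1 : TE f g) (h2 : TE g h) : TE f h :=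
  ⟨h1.1.trans h2.1, h2.2.trans h1.2⟩

theorem TE.of_eq {f g : ℕ → ℕ} (h : f = g) : TE f g := h ▸ TE.refl f

theorem LE.te_left {f f' g : ℕ → ℕ} (h : LE f g) (h1 : TE f f') : LE f' g := h1.2.trans h

theorem LE.te_right {f g g' : ℕ → ℕ} (h : LE f g) (h1 : TE g g') : LE f g' := h.trans h1.1

theorem TE.le_iff {f f' g g' : ℕ → ℕ} (h1 : TE f f') (h2 : TE g g') : LE f g ↔ LE f' g' :=
  ⟨fun h => (h1.2.trans h).trans h2.1, fun h => (h1.1.trans h).trans h2.2⟩

theorem jn_le_iff {f g h : ℕ → ℕ} : LE (jn f g) h ↔ LE f h ∧ LE g h :=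
  ⟨fun h1 => ⟨(le_jn_left f g).trans h1, (le_jn_right f g).trans h1⟩, fun h1 => jn_le h1.1 h1.2⟩

theorem jn_mono {f g f' g' : ℕ → ℕ} (h1 : LE f f') (h2 : LE g g') : LE (jn f g) (jn f' g') :=
  jn_le (h1.trans (le_jn_left _ _)) (h2.trans (le_jn_right _ _))

theorem jn_te {f g f' g' : ℕ → ℕ} (h1 : TE f f') (h2 : TE g g') : TE (jn f g) (jn f' g') :=
  ⟨jn_mono h1.1 h2.1, jn_mono h1.2 h2.2⟩

theorem jn_comm (f g : ℕ → ℕ) : TE (jn f g) (jn g f) :=
  ⟨jn_le (le_jn_right _ _) (le_jn_left _ _), jn_le (le_jn_right _ _) (le_jn_left _ _)⟩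

theorem jn_assoc (f g h : ℕ → ℕ) : TE (jn (jn f g) h) (jn f (jn g h)) :=
  ⟨jn_le (jn_le (le_jn_left _ _) ((le_jn_left _ _).trans (le_jn_right _ _)))
    ((le_jn_right _ _).trans (le_jn_right _ _)),
   jn_le ((le_jn_left _ _).trans (le_jn_left _ _))
    (jn_le ((le_jn_right _ _).trans (le_jn_left _ _)) (le_jn_right _ _))⟩

theorem CEIn.te {A : Set ℕ} {f g : ℕ → ℕ} (h : TE f g) : CEIn A f ↔ CEIn A g :=
  ⟨fun h1 => h1.mono h.1, fun h1 => h1.mono h.2⟩

/-! ### computations with an oracle -/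

theorem rt_fun2 {w a : ℕ → ℕ} {G : ℕ → ℕ → ℕ} (hG : Primrec₂ G) (ha : RT w a) :
    RT w (fun n => G n (a n)) := by
  have h1 : Nat.Primrec (fun v : ℕ => G v.unpair.1 v.unpair.2) :=
    Primrec.nat_iff.1 (hG.comp (Primrec.fst.comp Primrec.unpair) (Primrec.snd.comp Primrec.unpair))
  have h2 := rt_comp (rt_prim (w := w) h1) (rt_pair (rt_prim (Primrec.nat_iff.1 Primrec.id)) ha)
  simpa only [Nat.unpair_pair, id] using h2

theorem rt_fun3 {w a b : ℕ → ℕ} {G : ℕ → ℕ → ℕ → ℕ}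
    (hG : Primrec fun v : ℕ × ℕ × ℕ => G v.1 v.2.1 v.2.2) (ha : RT w a) (hb : RT w b) :
    RT w (fun n => G n (a n) (b n)) := by
  have h1 : Primrec₂ (fun (n v : ℕ) => G n v.unpair.1 v.unpair.2) := by
    have h2 : Primrec (fun v : ℕ × ℕ => ((v.1, v.2.unpair.1, v.2.unpair.2) : ℕ × ℕ × ℕ)) :=
      Primrec.pair Primrec.fst (Primrec.pair
      (Primrec.fst.comp (Primrec.unpair.comp Primrec.snd))
      (Primrec.snd.comp (Primrec.unpair.comp Primrec.snd)))
    exact hG.comp h2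
  have h2 := rt_fun2 h1 (rt_pair ha hb)
  simpa only [Nat.unpair_pair] using h2

theorem rt_primrec {w a : ℕ → ℕ} (ha : Primrec a) : RT w a := rt_prim (Primrec.nat_iff.1 ha)

theorem le_of_rt {f w : ℕ → ℕ} (h : RT w f) : LE f w := le_iff.2 h

theorem rt_of_le {f w : ℕ → ℕ} (h : LE f w) : RT w f := le_iff.1 h

theorem le_const (k : ℕ) (w : ℕ → ℕ) : LE (fun _ => k) w := le_of_rt (rt_primrec (Primrec.const k))

theorem le_zero (w : ℕ → ℕ) : LE (fun _ => 0) w := le_const 0 w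

theorem le_primrec {a w : ℕ → ℕ} (ha : Primrec a) : LE a w := le_of_rt (rt_primrec ha)

/-- `n ↦ x (a n)` for primitive recursive `a` -/
theorem le_comp_primrec {a x : ℕ → ℕ} (ha : Primrec a) : LE (fun n => x (a n)) x :=
  le_of_rt (rt_comp (rt_oracle x) (rt_primrec ha))

/-- `n ↦ x (a n)` for `x, a` computable from `w` -/
theorem le_comp {a x w : ℕ → ℕ} (hx : LE x w) (ha : LE a w) : LE (fun n => x (a n)) w :=
  le_of_rt (rt_comp (rt_of_le hx) (rt_of_le ha))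

theorem le_fun2 {w a : ℕ → ℕ} {G : ℕ → ℕ → ℕ} (hG : Primrec₂ G) (ha : LE a w) :
    LE (fun n => G n (a n)) w := le_of_rt (rt_fun2 hG (rt_of_le ha))

theorem le_fun3 {w a b : ℕ → ℕ} {G : ℕ → ℕ → ℕ → ℕ}
    (hG : Primrec fun v : ℕ × ℕ × ℕ => G v.1 v.2.1 v.2.2) (ha : LE a w) (hb : LE b w) :
    LE (fun n => G n (a n) (b n)) w := le_of_rt (rt_fun3 hG (rt_of_le ha) (rt_of_le hb))

theorem le_pair {w a b : ℕ → ℕ} (ha : LE a w) (hb : LE b w) :
    LE (fun n => Nat.pair (a n) (b n)) w := le_of_rt (rt_pair (rt_of_le ha) (rt_of_le hb))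

theorem le_ini {x w : ℕ → ℕ} (h : LE x w) : LE (fun n => ec (ini x n)) w :=
  (le_of_rt (rt_ini x)).trans h

/-- finite modification -/
theorem le_pre (f : ℕ → ℕ) (n : ℕ) (x : ℕ → ℕ) : LE (pre f n x) x := by
  have h : Primrec₂ (fun (i v : ℕ) => if i < n then (ini f n).getD i 0 else v) := by
    refine Primrec.ite (Primrec.nat_lt.comp Primrec.fst (Primrec.const n)) ?_ Primrec.snd
    exact (Primrec.list_getD 0).comp (Primrec.const _) Primrec.fst
  have h2 := le_fun2 h (LE.refl x)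
  have e : (fun i => if i < n then (ini f n).getD i 0 else x i) = pre f n x := by
    funext i
    unfold pre
    split_ifs with hi
    · simp [ini, hi]
    · rfl
  rwa [e] at h2

theorem pre_le_cat (f : ℕ → ℕ) (n : ℕ) (x : ℕ → ℕ) : cat f n x = pre f n (fun i => x (i - n)) := rfl

theorem cat_te (f : ℕ → ℕ) (n : ℕ) (x : ℕ → ℕ) : TE (cat f n x) x := by
  constructor
  · rw [pre_le_cat]
    exact (le_pre _ _ _).trans (le_comp_primrec (Primrec.nat_sub.comp Primrec.id (Primrec.const n)))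
  · have h := le_comp_primrec (x := cat f n x) (Primrec.nat_add.comp Primrec.id (Primrec.const n))
    have e : (fun m => cat f n x (id m + n)) = x := by
      funext m
      unfold cat
      rw [if_neg (by simp), id, Nat.add_sub_cancel]
    rwa [e] at h

theorem col_le (x : ℕ → ℕ) (i : ℕ) : LE (col x i) x :=
  le_comp_primrec (Primrec₂.natPair.comp (Primrec.const i) Primrec.id)

theorem le_comp' (e g : ℕ → ℕ) : LE (e ∘ g) (jn e g) :=
  le_comp (x := e) (a := g) (le_jn_left _ _) (le_jn_right _ _)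

theorem act_le (s g : ℕ → ℕ) : LE (act s g) (jn s g) := by
  have h1 : LE (fun n => ec (ini g n)) (jn s g) := le_ini (le_jn_right _ _)
  have h2 : LE (fun n => ec (ini g (n + 1))) (jn s g) :=
    (le_comp_primrec (x := fun n => ec (ini g n)) Primrec.succ).trans h1
  exact le_comp (x := s) (a := fun n => ec (ini g (n + 1))) (le_jn_left _ _) h2

/-! ### xor -/

theorem xr_apply (f g : ℕ → ℕ) (n : ℕ) : xr f g n = f n ^^^ g n := rfl

theorem xr_comm (f g : ℕ → ℕ) : xr f g = xr g f := funext fun _ => Nat.xor_comm _ _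

theorem xr_xr (f g : ℕ → ℕ) : xr (xr f g) g = f := by
  funext n
  simp [xr]

theorem xr_xr' (f g : ℕ → ℕ) : xr f (xr f g) = g := by
  rw [xr_comm f g, xr_comm, xr_xr]

/-! ### strings -/

theorem ec_inj {p q : List ℕ} (h : ec p = ec q) : p = q := Encodable.encode_injective h

theorem mem_Cy_iff {x f : ℕ → ℕ} {n : ℕ} : x ∈ Cy f n ↔ ini x n = ini f n :=
  ⟨fun h => ini_eq_of_agree h, fun h => agree_of_ini_eq h⟩

theorem mem_segs {m : ℕ} {f : ℕ → ℕ} : m ∈ segs f ↔ ∃ n, m = ec (ini f n) := Iff.rfl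

theorem ini_mem_segs (f : ℕ → ℕ) (n : ℕ) : ec (ini f n) ∈ segs f := ⟨n, rfl⟩

theorem ec_ini_mem_segs {f g : ℕ → ℕ} {n : ℕ} : ec (ini g n) ∈ segs f ↔ g ∈ Cy f n := by
  constructor
  · rintro ⟨m, hm⟩
    have h := ec_inj hm
    have h1 : n = m := by
      have := congrArg List.length h
      simpa [ini_length] using this
    subst h1
    exact mem_Cy_iff.2 h
  · intro h
    exact ⟨n, by rw [mem_Cy_iff.1 h]⟩

theorem lt_ec_of_mem {p : List ℕ} {k : ℕ} (h : k ∈ p) : k < ec p := by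
  induction p with
  | nil => simp at h
  | cons a l ih =>
    have e : ec (a :: l) = Nat.succ (Nat.pair a (ec l)) := by
      simp [ec]
    rw [e]
    rcases List.mem_cons.1 h with rfl | h
    · exact Nat.lt_succ_of_le (Nat.left_le_pair _ _)
    · exact lt_of_lt_of_le (ih h) ((Nat.right_le_pair _ _).trans (Nat.le_succ _))

theorem lt_ec_ini {g : ℕ → ℕ} {i n : ℕ} (h : i < n) : g i < ec (ini g n) :=
  lt_ec_of_mem (by
    unfold ini
    exact List.mem_map.2 ⟨i, List.mem_range.2 h, rfl⟩)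

theorem ini_concat (u : ℕ → ℕ) (M : ℕ) : ini u (M + 1) = ini u M ++ [u M] := ini_succ u M

/-! ### cylinders -/

theorem mem_Cy_self (f : ℕ → ℕ) (n : ℕ) : f ∈ Cy f n := fun _ _ => rfl

theorem Cy_mono {f : ℕ → ℕ} {n m : ℕ} (h : n ≤ m) : Cy f m ⊆ Cy f n :=
  fun _ hx i hi => hx i (lt_of_lt_of_le hi h)

theorem Cy_zero (f : ℕ → ℕ) : Cy f 0 = univ := by
  ext x
  simp [Cy]

theorem Cy_congr {f g : ℕ → ℕ} {n : ℕ} (h : g ∈ Cy f n) : Cy g n = Cy f n := by
  ext x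
  constructor
  · intro hx i hi
    rw [hx i hi, h i hi]
  · intro hx i hi
    rw [hx i hi, h i hi]

theorem mem_Cy_symm {f g : ℕ → ℕ} {n : ℕ} (h : g ∈ Cy f n) : f ∈ Cy g n :=
  fun i hi => (h i hi).symm

theorem mem_Cy_trans {f g h : ℕ → ℕ} {n : ℕ} (h1 : g ∈ Cy f n) (h2 : h ∈ Cy g n) : h ∈ Cy f n :=
  fun i hi => (h2 i hi).trans (h1 i hi)

theorem pre_mem (f : ℕ → ℕ) (n : ℕ) (x : ℕ → ℕ) : pre f n x ∈ Cy f n := fun _ hi => if_pos hi

theorem cat_mem (f : ℕ → ℕ) (n : ℕ) (x : ℕ → ℕ) : cat f n x ∈ Cy f n := fun _ hi => if_pos hi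

theorem pre_of_mem {f x : ℕ → ℕ} {n : ℕ} (h : x ∈ Cy f n) : pre f n x = x := by
  funext i
  unfold pre
  split_ifs with hi
  · exact (h i hi).symm
  · rfl

theorem cat_shift {f x : ℕ → ℕ} {n : ℕ} (h : x ∈ Cy f n) : cat f n (fun i => x (i + n)) = x := by
  funext i
  unfold cat
  split_ifs with hi
  · exact (h i hi).symm
  · change x (i - n + n) = x i
    rw [Nat.sub_add_cancel (by omega)]

theorem cat_add (f : ℕ → ℕ) (n : ℕ) (x : ℕ → ℕ) (i : ℕ) : cat f n x (i + n) = x i := by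
  unfold cat
  rw [if_neg (by omega), Nat.add_sub_cancel]

theorem cat_mem_iff {f x y : ℕ → ℕ} {n m : ℕ} :
    cat f n x ∈ Cy (cat f n y) (n + m) ↔ x ∈ Cy y m := by
  constructor
  · intro h i hi
    have := h (i + n) (by omega)
    rwa [cat_add, cat_add] at this
  · intro h i hi
    unfold cat
    split_ifs with h1
    · rfl
    · exact h _ (by omega)

theorem jn_mem_iff {f g f' g' : ℕ → ℕ} {n : ℕ} :
    jn f g ∈ Cy (jn f' g') n ↔ f ∈ Cy f' n ∧ g ∈ Cy g' n := by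
  constructor
  · intro h
    constructor
    · intro i hi
      have := h i hi
      simp only [jn] at this
      exact (Nat.pair_eq_pair.1 this).1
    · intro i hi
      have := h i hi
      simp only [jn] at this
      exact (Nat.pair_eq_pair.1 this).2
  · rintro ⟨h1, h2⟩ i hi
    simp only [jn]
    rw [h1 i hi, h2 i hi]

theorem WC_use' {c : Code} {f : ℕ → ℕ} {n : ℕ} (h : n ∈ WC c f) :
    ∃ s, ∀ g ∈ Cy f s, n ∈ WC c g := by
  obtain ⟨s, hs⟩ := WC_use h
  exact ⟨s, fun g hg => hs g hg⟩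

theorem le_iff_WC {g f : ℕ → ℕ} : LE g f ↔ ∃ c, segs g = WC c f := by
  rw [le_iff_segs, ceIn_iff]

theorem CEIn.of_zero {A : Set ℕ} (h : CEIn A (fun _ => 0)) (w : ℕ → ℕ) : CEIn A w :=
  h.mono (le_zero w)

end Pool.Agent.Helper69.MWF
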