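import Pool.Agent.Helper69.MWF.MAIN
import Pool.Agent.Helper82.MWF.CEC
import Pool.Agent.Helper15.MWF.RTG
import Pool.Agent.Helper19.MWF.PRS
import Pool.Agent.Helper19.MWF.D2
import Pool.Agent.Helper10.MWF.CL
import Pool.Agent.Helper10.MWF.RES
import Pool.Agent.Helper33.MWF.KU
import Pool.Agent.Helper59.MWF.CCC
import Pool.Agent.Helper59.MWF.D1
import Pool.Agent.Helper95.MWF.CODE
import Pool.Agent.Helper95.MWF.BOX
import Pool.Agent.Helper95.MWF.GLOB
import Pool.Agent.Helper95.MWF.KK
import Pool.Agent.Helper27.MWF.FUS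
import Pool.Agent.Helper27.MWF.INF
import Pool.Agent.Helper27.MWF.UNIF
import Pool.Agent.Helper27.MWF.MC
import Pool.Agent.Helper20.MWF.REP
import Pool.Agent.Helper45.MWF.BOR
import Pool.Agent.Helper45.MWF.ORB2
import Pool.Agent.Helper45.MWF.TREE
import Pool.Agent.Helper68.MWF.BACK

/-!
# MP_80e84b_lc (S14965): all modules together
-/

set_option autoImplicit false

namespace Pool.Agent.Helper69.MWF

open Pool.Agent.Helper95.MW

theorem all_main (comp : ST_COMP) : ST_MAIN := by
  have res : ST_RES := H10.res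
  have cec : ST_CEC := Pool.Agent.Helper82.MWF.st_CEC
  have zip : ST_ZIP := Pool.Agent.Helper82.MWF.st_ZIP
  have enum : ST_ENUM := Pool.Agent.Helper82.MWF.st_ENUM
  have ap : ST_AP := Pool.Agent.Helper45.MWF.ap
  have borle : ST_BORLE := Pool.Agent.Helper45.MWF.borle
  have borsw : ST_BORSW := Pool.Agent.Helper45.MWF.borsw
  have borwc : ST_BORWC := Pool.Agent.Helper45.MWF.borwc
  have pr : ST_PR := st_PR19
  have cl : ST_CL := H10.cl pr
  have l1 : ST_L1 := Pool.Agent.Helper33.MWF.st_L1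
  have l2 : ST_L2 := Pool.Agent.Helper33.MWF.st_L2
  have uni1 : ST_UNI1 := Pool.Agent.Helper33.MWF.st_UNI1
  have uni2 : ST_UNI2 := Pool.Agent.Helper33.MWF.st_UNI2
  have code : ST_CODE := st_CODE ap borle
  have glob : ST_GLOB := st_GLOB code st_BM27 res
  have unif : ST_UNIF := st_UNIF glob ap borle l1 l2 Pool.Agent.Helper59.MWF.st_CCC st_FUS
    (st_INF27 ap borle) res
  have rep : ST_REP := Pool.Agent.Helper20.MWF.rep unif st_MC27 glob uni1 borsw res
  have box : ST_BOX := st_BOX uni1 uni2 comp borsw res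
  have tree : ST_TREE := Pool.Agent.Helper45.MWF.tree box Pool.Agent.Helper45.MWF.orb2 rtg cl res cec
  have kk : ST_KK := st_KK res
  have sub : ST_SUB := Pool.Agent.Helper19.MWF.st_SUB cec
  have d1 : ST_D1 := Pool.Agent.Helper59.MWF.st_D1 enum uni2 borsw tree kk zip un sub res
  have d2 : ST_D2 := Pool.Agent.Helper19.MWF.st_D2 cec d1 uni2 borwc kk
  have d3 : ST_D3 := Pool.Agent.Helper19.MWF.st_D3 kk sub d2
  have back : ST_BACK := Pool.Agent.Helper68.MWF.st_BACK pr uni2 borsw kk un sub cec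
  exact st_MAIN rep d1 d3 back

end Pool.Agent.Helper69.MWF
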