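import Pool.Agent.Helper95.MW.Main

/-!
# MP_80e84b_lc (S14965): definitions
-/

set_option autoImplicit false

open Topology Set Filter
open Nat.Partrec (Code)

namespace Pool.Agent.Helper69.MWF

open Pool.Agent.Helper95.MW

/-- Turing equivalence -/
def TE (f g : ℕ → ℕ) : Prop := LE f g ∧ LE g f

/-- the cylinder of the first `n` values of `f` -/
def Cy (f : ℕ → ℕ) (n : ℕ) : Set (ℕ → ℕ) := {x | ∀ i < n, x i = f i}

/-- `x` with the first `n` values replaced by those of `f` -/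
def pre (f : ℕ → ℕ) (n : ℕ) (x : ℕ → ℕ) : ℕ → ℕ := fun i => if i < n then f i else x i

/-- concatenation of the first `n` values of `f` and of `x` -/
def cat (f : ℕ → ℕ) (n : ℕ) (x : ℕ → ℕ) : ℕ → ℕ := fun i => if i < n then f i else x (i - n)

/-- column -/
def col (x : ℕ → ℕ) (i : ℕ) : ℕ → ℕ := fun n => x (Nat.pair i n)

/-- pointwise xor -/
def xr (f g : ℕ → ℕ) : ℕ → ℕ := fun n => f n ^^^ g n

open Classical in
/-- application of the functional with code `c` (zero if the result is not a total function) -/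
noncomputable def Ap (c : Code) (x : ℕ → ℕ) : ℕ → ℕ :=
  if h : ∃ y, segs y = WC c x then h.choose else fun _ => 0

open Classical in
/-- inverse automorphism -/
noncomputable def piInv (π : (ℕ → ℕ) → (ℕ → ℕ)) (h : ℕ → ℕ) : ℕ → ℕ :=
  if hh : ∃ f, TE (π f) h then hh.choose else fun _ => 0

/-- `S` is nonmeager in each cylinder inside the cylinder `(f, n)` -/
def EN (S : Set (ℕ → ℕ)) (f : ℕ → ℕ) (n : ℕ) : Prop :=
  ∀ (f' : ℕ → ℕ) (n' : ℕ), n ≤ n' → f' ∈ Cy f n → ¬ IsMeagre (S ∩ Cy f' n')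

/-- a Borel map `F` which represents `π` on the residual set `G`, continuous on `G` with
continuous inverse -/
structure Rep (π F : (ℕ → ℕ) → (ℕ → ℕ)) (G : Set (ℕ → ℕ)) : Prop where
  res : G ∈ residual (ℕ → ℕ)
  te : ∀ x ∈ G, TE (F x) (π x)
  meas : Measurable F
  cont : ∀ x ∈ G, ∀ n, ∃ m, ∀ x' ∈ G, x' ∈ Cy x m → F x' ∈ Cy (F x) n
  inv : ∀ x ∈ G, ∀ n, ∃ m, ∀ x' ∈ G, F x' ∈ Cy (F x) m → x' ∈ Cy x n

/-- the initial segments (codes) of the values of `F` on `D` -/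
def TS (F : (ℕ → ℕ) → (ℕ → ℕ)) (D : Set (ℕ → ℕ)) : Set ℕ := {m | ∃ x ∈ D, m ∈ segs (F x)}

/-- the initial segments (codes) of the elements of `J` in the cylinder `(y, n)` -/
def SS (J : Set (ℕ → ℕ)) (y : ℕ → ℕ) (n : ℕ) : Set ℕ := {m | ∃ y' ∈ J, y' ∈ Cy y n ∧ m ∈ segs y'}

/-- action of the labels `s` (at the codes of the strings) -/
def act (s g : ℕ → ℕ) : ℕ → ℕ := fun n => s (ec (ini g (n + 1)))

/-- the action inside the cylinder `(u, M)` -/
def alp (u : ℕ → ℕ) (M : ℕ) (s g : ℕ → ℕ) : ℕ → ℕ := pre u M (act s g)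

/-- the involution of `ℕ` which exchanges `[0, i]` and `[i + 1, 2 i + 1]` -/
def swp (i j : ℕ) : ℕ := if j ≤ i then j + i + 1 else if j ≤ 2 * i + 1 then j - (i + 1) else j

/-- the involution of the labels: changes the labels of the strings `u|M ^ i` by `swp i` -/
def Hm (u : ℕ → ℕ) (M : ℕ) (s : ℕ → ℕ) : ℕ → ℕ := fun k =>
  if k = ec (ini u M ++ [(dl k).getD M 0]) then swp ((dl k).getD M 0) (s k) else s k

/-- orbit under the two maps `alp u M s`, `alp u M (Hm u M s)` -/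
def orb (u : ℕ → ℕ) (M : ℕ) (s g : ℕ → ℕ) : List Bool → (ℕ → ℕ)
  | [] => g
  | b :: w => alp u M (if b then Hm u M s else s) (orb u M s g w)

/-- pairs of elements of `G` with difference (xor) in `A^ω` -/
def KK (A : Set ℕ) (G : Set (ℕ → ℕ)) : Set ((ℕ → ℕ) × (ℕ → ℕ)) :=
  {p | p.1 ∈ G ∧ p.2 ∈ G ∧ ∀ n, (p.1 n ^^^ p.2 n) ∈ A}

/-- the images of the pairs -/
def JJ (A : Set ℕ) (G : Set (ℕ → ℕ)) (F : (ℕ → ℕ) → (ℕ → ℕ)) : Set (ℕ → ℕ) :=
  {y | ∃ p ∈ KK A G, y = jn (F p.1) (F p.2)}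

end Pool.Agent.Helper69.MWF
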