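import Pool.Agent.Helper69.MWF.ALL
import Pool.Agent.Helper67.MWF.UC

/-!
# MP_80e84b_lc: the frozen statement S14965, in the words of `Helper95/MW`
-/

set_option autoImplicit false

namespace Pool.Agent.Helper69.MWF

open Pool.Agent.Helper95.MW

/-- Every automorphism of the Muchnik lattice maps weak degrees of enumerability to weak degrees of
enumerability. -/
theorem frozen (Φ : Set (ℕ → ℕ) → Set (ℕ → ℕ))
    (h1 : ∀ P Q : Set (ℕ → ℕ), WLE P Q ↔ WLE (Φ P) (Φ Q))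
    (h2 : ∀ C : Set (ℕ → ℕ), ∃ P : Set (ℕ → ℕ), WLE (Φ P) C ∧ WLE C (Φ P)) (A : Set ℕ) :
    ∃ B : Set ℕ, WLE (Φ (Enu A)) (Enu B) ∧ WLE (Enu B) (Φ (Enu A)) :=
  frozen_of_main (all_main Pool.Agent.Helper67.MWF.st_COMP) ⟨h1, h2⟩ A

end Pool.Agent.Helper69.MWF
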