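import Pool.Agent.Helper69.MWF.Stmts
import Pool.Agent.Helper69.MWF.BasicT

/-!
# MP_80e84b_lc (S14965): continuity of the pairs, for a given parametrisation
-/

set_option autoImplicit false

open Topology Set Filter
open Nat.Partrec (Code)

namespace Pool.Agent.Helper69.MWF

open Pool.Agent.Helper95.MW

/-- continuity of `(k, g) ↦ jn (F k) (F (k xor e ∘ g))` at pairs in `KK A G` -/
theorem kkg {A : Set ℕ} {F π : (ℕ → ℕ) → (ℕ → ℕ)} {G : Set (ℕ → ℕ)} (hR : Rep π F G)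
    (e : ℕ → ℕ) (k g : ℕ → ℕ) (h : (k, xr k (e ∘ g)) ∈ KK A G) (n : ℕ) :
    ∃ m, ∀ k' g' : ℕ → ℕ, k' ∈ Cy k m → g' ∈ Cy g m → (k', xr k' (e ∘ g')) ∈ KK A G →
      jn (F k') (F (xr k' (e ∘ g'))) ∈ Cy (jn (F k) (F (xr k (e ∘ g)))) n := by
  obtain ⟨m1, h1⟩ := hR.cont k h.1 n
  obtain ⟨m2, h2⟩ := hR.cont (xr k (e ∘ g)) h.2.1 n
  refine ⟨max m1 m2, fun k' g' hk hg hkk => ?_⟩
  rw [jn_mem_iff]
  refine ⟨h1 k' hkk.1 (Cy_mono (le_max_left _ _) hk), h2 _ hkk.2.1 ?_⟩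
  intro i hi
  have e1 := hk i (lt_of_lt_of_le hi (le_max_right _ _))
  have e2 := hg i (lt_of_lt_of_le hi (le_max_right _ _))
  simp only [xr, Function.comp_apply, e1, e2]

end Pool.Agent.Helper69.MWF
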