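import Pool.Agent.Helper69.MWF.Stmts
import Pool.Agent.Helper69.MWF.BasicT

/-!
# MP_80e84b_lc (S14965): assembly of the main theorem
-/

set_option autoImplicit false

open Topology Set Filter
open Nat.Partrec (Code)

namespace Pool.Agent.Helper69.MWF

open Pool.Agent.Helper95.MW

theorem st_MAIN (rep : ST_REP) (d1 : ST_D1) (d3 : ST_D3) (back : ST_BACK) : ST_MAIN := by
  intro π hπ A
  rcases A.eq_empty_or_nonempty with rfl | hA
  · refine ⟨∅, fun z => ?_⟩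
    have h : ∀ f : ℕ → ℕ, CEIn ∅ f := by
      intro f
      have h1 := ceIn_search (α := ℕ) (fun _ => false) (Primrec.const _) id Primrec.id f
      simpa using h1
    exact ⟨fun _ => h _, fun _ => h _⟩
  · obtain ⟨F, G, hR⟩ := rep π hπ
    obtain ⟨y, hy, n, h3⟩ := d3 π F G hπ hR A hA
    refine ⟨SS (JJ A G F) y n, fun z => ⟨fun hz => ?_, fun hz => back π F G hπ hR A z hA y hy n hz⟩⟩
    obtain ⟨y', hy', n', hn, hy2, hce⟩ := d1 π F G hπ hR A z hA hz y hy n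
    exact h3 y' hy' n' hn hy2 _ hce

/-- from automorphisms of the Turing degrees to automorphisms of the Muchnik lattice -/
theorem frozen_of_main (hmain : ST_MAIN) {Φ : Set (ℕ → ℕ) → Set (ℕ → ℕ)} (h : IsAut Φ)
    (A : Set ℕ) : ∃ B : Set ℕ, WLE (Φ (Enu A)) (Enu B) ∧ WLE (Enu B) (Φ (Enu A)) := by
  obtain ⟨π, hπ⟩ := h.exists_pi
  have hp := h.piAut hπ
  have hm := h.mem_iff hπ A
  obtain ⟨B, hB⟩ := hmain π hp A
  refine ⟨B, ?_, ?_⟩
  · intro f hf
    obtain ⟨g, hg1, hg2⟩ := hp.surj f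
    have h1 : CEIn B (π g) := CEIn.mono hf hg2
    have h2 : WLE (Φ (Enu A)) {π g} := (hm g).2 ((hB g).2 h1)
    obtain ⟨k, hk, hk2⟩ := wle_singleton.1 h2
    exact ⟨k, hk, hk2.trans hg1⟩
  · intro f hf
    obtain ⟨g, hg1, hg2⟩ := hp.surj f
    have h1 : WLE (Φ (Enu A)) {π g} := wle_singleton.2 ⟨f, hf, hg2⟩
    have h2 : CEIn B (π g) := (hB g).1 ((hm g).1 h1)
    exact ⟨f, h2.mono hg1, LE.refl f⟩

end Pool.Agent.Helper69.MWF
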